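import Pool.Agent.helper48.EXI.Spec2

/-!
# Project NPT (MP_8f32d0_ag), block EXI, row XNI (the Hasse-Witt matrix of the one-point data is nilpotent)
-/

set_option autoImplicit false

namespace EXI

open scoped Classical
open AN
open Pool.Agent.helper53.AU

noncomputable section

/-- the sign of the parity -/
def XNI_s (R : Type) [CommRing R] (n : ℤ) : R := if Even n then 1 else -1

theorem XNI_s_add (R : Type) [CommRing R] (m n : ℤ) : XNI_s R (m + n) = XNI_s R m * XNI_s R n := by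
  unfold XNI_s
  by_cases h1 : Even m <;> by_cases h2 : Even n <;> simp [Int.even_add, h1, h2]

/-- `s ↦ -s` -/
def XNI_sg {R : Type} [CommRing R] (f : LS R) : LS R :=
  ofFun (fun n => XNI_s R n * cf f n) (exists_lb f).choose fun n hn => by
    rw [(exists_lb f).choose_spec n hn, mul_zero]

theorem XNI_cf_sg {R : Type} [CommRing R] (f : LS R) (n : ℤ) : cf (XNI_sg f) n = XNI_s R n * cf f n := rfl

theorem XNI_sg_GE {R : Type} [CommRing R] {m : ℤ} {f : LS R} (hf : f ∈ GE R m) : XNI_sg f ∈ GE R m := by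
  intro n hn
  rw [XNI_cf_sg, hf n hn, mul_zero]

theorem XNI_sg_mul {R : Type} [CommRing R] (f h : LS R) : XNI_sg (f * h) = XNI_sg f * XNI_sg h := by
  apply LS.ext
  intro n
  obtain ⟨a, ha⟩ := exists_lb f
  obtain ⟨b, hb⟩ := exists_lb h
  have ha' : f ∈ GE R a := ha
  have hb' : h ∈ GE R b := hb
  rw [XNI_cf_sg, cf_mul_finset f h n ha' hb', cf_mul_finset _ _ n (XNI_sg_GE ha') (XNI_sg_GE hb'), Finset.mul_sum]
  refine Finset.sum_congr rfl fun i _ => ?_
  rw [XNI_cf_sg, XNI_cf_sg]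
  have h1 : XNI_s R n = XNI_s R i * XNI_s R (n - i) := by
    rw [← XNI_s_add]
    congr 1
    omega
  rw [h1]
  ring

/-- an even series is in the image of `E2` -/
theorem XNI_even {R : Type} [CommRing R] (f : LS R) (hf : ∀ n : ℤ, ¬ Even n → cf f n = 0) : ∃ h : LS R, f = E2 h := by
  obtain ⟨N, hN⟩ := exists_lb_nat f
  refine ⟨ofFun (fun n => cf f (2 * n)) (-(N : ℤ)) (fun n hn => hN _ (by omega)), ?_⟩
  apply LS.ext
  intro n
  by_cases h : Even n
  · obtain ⟨m, hm⟩ := h
    rw [show n = 2 * m by omega, cf_E2_even, cf_ofFun]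
  · rw [cf_E2_odd _ _ h, hf n h]

/-- the quotient of two odd series is even -/
theorem XNI_div {L : Type} [Field L] (h2 : (2 : L) ≠ 0) (y z : LS L) (hy : y ≠ 0) (hy1 : ∀ n : ℤ, Even n → cf y n = 0)
    (hz1 : ∀ n : ℤ, Even n → cf z n = 0) : ∃ h : LS L, z = y * E2 h := by
  have e1 : ∀ x : LS L, (∀ n : ℤ, Even n → cf x n = 0) → XNI_sg x = -x := by
    intro x hx
    apply LS.ext
    intro n
    rw [XNI_cf_sg, cf_neg]
    unfold XNI_s
    by_cases h : Even n
    · rw [hx n h]
      simp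
    · rw [if_neg h]
      ring
  have e2 : z = y * (y⁻¹ * z) := by
    rw [← mul_assoc, mul_inv_cancel₀ hy, one_mul]
  have e3 : XNI_sg (y⁻¹ * z) = y⁻¹ * z := by
    have h3 : XNI_sg z = XNI_sg y * XNI_sg (y⁻¹ * z) := by
      rw [← XNI_sg_mul, ← e2]
    rw [e1 z hz1, e1 y hy1] at h3
    apply mul_left_cancel₀ hy
    rw [← e2]
    have h4 : -(-z) = -((-y) * XNI_sg (y⁻¹ * z)) := congrArg Neg.neg h3
    rw [neg_neg, neg_mul, neg_neg] at h4
    exact h4.symm
  obtain ⟨h, hh⟩ := XNI_even (y⁻¹ * z) (by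
    intro n hn
    have h5 := congrArg (fun x => cf x n) e3
    replace h5 : XNI_s L n * cf (y⁻¹ * z) n = cf (y⁻¹ * z) n := h5
    unfold XNI_s at h5
    rw [if_neg hn] at h5
    have h6 : (2 : L) * cf (y⁻¹ * z) n = 0 := by linear_combination (-1 : L) * h5
    exact (mul_eq_zero.1 h6).resolve_left h2)
  exact ⟨h, by rw [← hh]; exact e2⟩

/-- `E2` and monomials -/
theorem XNI_E2_mono {R : Type} [CommRing R] (n : ℤ) (c : R) : E2 (mono n c) = mono (2 * n) c := by
  apply LS.ext
  intro m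
  by_cases h : Even m
  · obtain ⟨k, hk⟩ := h
    rw [show m = 2 * k by omega, cf_E2_even, cf_mono, cf_mono]
    by_cases h1 : k = n
    · rw [if_pos h1, if_pos (by omega)]
    · rw [if_neg h1, if_neg (by omega)]
  · rw [cf_E2_odd _ _ h, cf_mono, if_neg]
    intro h1
    exact h ⟨n, by omega⟩

theorem XNI_E2_GE {R : Type} [CommRing R] {m : ℤ} {f : LS R} (hf : f ∈ GE R m) : E2 f ∈ GE R (2 * m) := by
  intro n hn
  by_cases h : Even n
  · obtain ⟨k, hk⟩ := h
    rw [show n = 2 * k by omega, cf_E2_even]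
    exact hf k (by omega)
  · exact cf_E2_odd _ _ h

/-- the part of a series with exponents at most `0` -/
def XNI_low {R : Type} [CommRing R] (f : LS R) : LS R :=
  ∑ i ∈ Finset.range ((exists_lb_nat f).choose + 1), mono (-(i : ℤ)) (cf f (-(i : ℤ)))

theorem XNI_cf_low {R : Type} [CommRing R] (f : LS R) (n : ℤ) : cf (XNI_low f) n = if n ≤ 0 then cf f n else 0 := by
  unfold XNI_low
  rw [cf_sum]
  by_cases h : n ≤ 0
  · rw [if_pos h]
    obtain ⟨k, hk⟩ := Int.eq_ofNat_of_zero_le (show 0 ≤ -n by omega)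
    have hn : n = -(k : ℤ) := by omega
    by_cases h1 : k < (exists_lb_nat f).choose + 1
    · rw [Finset.sum_eq_single k]
      · rw [cf_mono, if_pos hn, hn]
      · intro b _ hb
        rw [cf_mono, if_neg (by omega)]
      · intro h2
        exact absurd (Finset.mem_range.2 h1) h2
    · have h3 : cf f n = 0 := (exists_lb_nat f).choose_spec n (by omega)
      rw [h3]
      refine Finset.sum_eq_zero fun b hb => ?_
      rw [cf_mono]
      have := Finset.mem_range.1 hb
      rw [if_neg (by omega)]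
  · rw [if_neg h]
    refine Finset.sum_eq_zero fun b hb => ?_
    rw [cf_mono, if_neg (by omega)]

theorem XNI_low_mem {R : Type} [CommRing R] (y f : LS R) : y * E2 (XNI_low f) ∈ VV y := by
  unfold XNI_low
  rw [map_sum, Finset.mul_sum]
  refine Submodule.sum_mem _ fun i _ => ?_
  rw [XNI_E2_mono]
  have h1 : y * mono (2 * -(i : ℤ)) (cf f (-(i : ℤ))) = cf f (-(i : ℤ)) • (mono (-(2 * (i : ℤ))) 1 * y) := by
    rw [← C_mul, C_eq_mono, ← mul_assoc, mono_mul_mono, mul_comm y]
    congr 2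
    · ring
    · ring
  rw [h1]
  exact Submodule.smul_mem _ _ (Submodule.subset_span ⟨i, Or.inr rfl⟩)

theorem XNI_low_mem1 {R : Type} [CommRing R] (y f : LS R) : E2 (XNI_low f) ∈ VV y := by
  unfold XNI_low
  rw [map_sum]
  refine Submodule.sum_mem _ fun i _ => ?_
  rw [XNI_E2_mono]
  have h1 : mono (2 * -(i : ℤ)) (cf f (-(i : ℤ))) = cf f (-(i : ℤ)) • (mono (-(2 * (i : ℤ))) (1 : R)) := by
    rw [smul_mono, mul_one]
    congr 1
    ring
  rw [h1]
  exact Submodule.smul_mem _ _ (Submodule.subset_span ⟨i, Or.inl rfl⟩)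

/-- the decomposition (1) -/
theorem XNI_dec {L : Type} [Field L] (h2 : (2 : L) ≠ 0) (y : LS L) (hy : y ≠ 0) (hy1 : ∀ n : ℤ, Even n → cf y n = 0) (f : LS L) :
    ∃ v ∈ VV y, ∃ ξ : LS L, ∃ o ∈ PS L, f = v + y * E2 ξ + o := by
  obtain ⟨N, hN⟩ := exists_lb_nat f
  -- even and odd parts
  let fe : LS L := ofFun (fun n => if Even n then cf f n else 0) (-(N : ℤ)) (fun n hn => by
    show (if Even n then cf f n else 0) = 0
    rw [hN n hn]
    simp)
  let fo : LS L := ofFun (fun n => if Even n then 0 else cf f n) (-(N : ℤ)) (fun n hn => by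
    show (if Even n then 0 else cf f n) = 0
    rw [hN n hn]
    simp)
  have hfe : ∀ n, cf fe n = if Even n then cf f n else 0 := fun n => rfl
  have hfo : ∀ n, cf fo n = if Even n then 0 else cf f n := fun n => rfl
  have hsum : f = fe + fo := by
    apply LS.ext
    intro n
    rw [cf_add, hfe, hfo]
    split_ifs <;> simp
  obtain ⟨a, ha⟩ := XNI_even fe (fun n hn => by rw [hfe, if_neg hn])
  obtain ⟨b, hb⟩ := XNI_div h2 y fo hy hy1 (fun n hn => by rw [hfo, if_pos hn])
  refine ⟨E2 (XNI_low a), XNI_low_mem1 y a, b, E2 (a - XNI_low a), ?_, ?_⟩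
  · have h3 : a - XNI_low a ∈ GE L 0 := by
      intro n hn
      rw [cf_sub, XNI_cf_low, if_pos (by omega), sub_self]
    have h4 := XNI_E2_GE h3
    rw [mul_zero] at h4
    exact h4
  · rw [map_sub, ← ha, ← hb, hsum]
    ring

/-- powers of `y E2 ξ` -/
theorem XNI_pow (p : ℕ) [Fact p.Prime] {R : Type} [CommRing R] {g : ℕ} (t : Fin (2 * g + 1) → R) (y : LS R) (hp2 : p ≠ 2)
    (hy : y ^ 2 = E2 (fx t)) (n : ℕ) (ξ : LS R) : (y * E2 ξ) ^ (p ^ n) = y * E2 ((Fi p t)^[n] ξ) := by
  induction n with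
  | zero => rw [pow_zero, pow_one, Function.iterate_zero, id]
  | succ n ih =>
    rw [pow_succ, pow_mul, ih, Function.iterate_succ_apply']
    generalize (Fi p t)^[n] ξ = η
    have hodd : p = 2 * ((p - 1) / 2) + 1 := by
      rcases (Fact.out : p.Prime).eq_two_or_odd with h | h
      · exact absurd h hp2
      · omega
    have h1 : y ^ p = y * E2 (fx t) ^ ((p - 1) / 2) := by
      conv_lhs => rw [hodd]
      rw [pow_succ, pow_mul, hy]
      ring
    unfold Fi
    rw [mul_pow, h1, map_mul, map_pow, map_pow]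
    ring

theorem XNI (hHHV : HHV_stmt) (hKH2 : KH2_stmt) (hCRD : NPT.CRD_stmt) : XNI_stmt := by
  intro p _ L _ _ g t y hp2 hy hMN γ a hK hA
  have hp : p.Prime := Fact.out
  have h2 : (2 : L) ≠ 0 := by
    intro h
    have h3 : ((2 : ℕ) : L) = 0 := by exact_mod_cast h
    rw [CharP.cast_eq_zero_iff L p] at h3
    have h4 := Nat.le_of_dvd (by norm_num) h3
    have := hp.two_le
    omega
  have hy0 : y ≠ 0 := by
    intro h
    have h3 := hy.lead
    rw [h, cf_zero] at h3
    exact not_isUnit_zero h3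
  have iLS : CharP (LS L) p := by
    refine charP_of_injective_ringHom (f := (LS.C : L →+* LS L)) ?_ p
    exact HahnSeries.C_injective
  have hmul := (hKH2 L h2 g t y hy).1
  have hone : (1 : LS L) ∈ VV y := by
    have h3 : (1 : LS L) = mono (-(2 * ((0 : ℕ) : ℤ))) 1 := by
      rw [← map_one LS.C, C_eq_mono]
      norm_num
    rw [h3]
    exact Submodule.subset_span ⟨0, Or.inl rfl⟩
  have hpow : ∀ v ∈ VV y, ∀ n : ℕ, v ^ n ∈ VV y := by
    intro v hv n
    induction n with
    | zero => rw [pow_zero]; exact hone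
    | succ n ih => rw [pow_succ]; exact hmul _ ih _ hv
  have hpowo : ∀ o ∈ PS L, ∀ n : ℕ, o ^ n ∈ PS L := by
    intro o ho n
    induction n with
    | zero => rw [pow_zero]; exact one_mem_PS
    | succ n ih => rw [pow_succ]; exact PS_mul ih ho
  -- (3)
  have key : ∀ f : LS L, ∃ α ∈ VV y, ∃ o ∈ PS L, f ^ (p ^ g) = α + o := by
    intro f
    obtain ⟨v, hv, ξ, o, ho, hf⟩ := XNI_dec h2 y hy0 hy.odd f
    have h3 : f ^ (p ^ g) = v ^ (p ^ g) + y * E2 ((Fi p t)^[g] ξ) + o ^ (p ^ g) := by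
      rw [hf, add_pow_char_pow, add_pow_char_pow, XNI_pow p t y hp2 hy.sq g ξ]
    have h4 : ∀ i : Fin g, cf ((Fi p t)^[g] ξ) (((i : ℕ) : ℤ) + 1) = 0 := by
      intro i
      rw [hHHV.2 p g L t hp2 g ξ i, hMN, Matrix.zero_mulVec]
      rfl
    generalize (Fi p t)^[g] ξ = ζ at h3 h4
    have h5 : y * E2 (ζ - XNI_low ζ) ∈ PS L := by
      have h6 : ζ - XNI_low ζ ∈ GE L ((g : ℤ) + 1) := by
        intro n hn
        rw [cf_sub, XNI_cf_low]
        by_cases h7 : n ≤ 0
        · rw [if_pos h7, sub_self]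
        · rw [if_neg h7, sub_zero]
          obtain ⟨k, hk⟩ := Int.eq_ofNat_of_zero_le (show 0 ≤ n - 1 by omega)
          have h8 := h4 ⟨k, by omega⟩
          rw [← h8]
          congr 1
          show n = (k : ℤ) + 1
          omega
      have h9 := GE_mul hy.ord (XNI_E2_GE h6)
      exact GE_mono (by omega) h9
    refine ⟨v ^ (p ^ g) + y * E2 (XNI_low ζ), Submodule.add_mem _ (hpow v hv _) (XNI_low_mem y ζ),
      y * E2 (ζ - XNI_low ζ) + o ^ (p ^ g), Submodule.add_mem _ h5 (hpowo o ho _), ?_⟩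
    rw [h3, map_sub]
    ring
  -- (4)
  obtain ⟨_, hC2, hC3, hC4, _⟩ := hCRD p L g γ a hK
  have hit : ∀ (j : Fin g) (n : ℕ), NPT.crd γ a (NPT.ee γ (Pi.single j (1 : L)) ^ (p ^ n)) = fun i => MN p (HW p γ a) n i j := by
    intro j n
    induction n with
    | zero =>
      rw [pow_zero, pow_one, hC3]
      funext i
      show (Pi.single j (1 : L) : Fin g → L) i = (1 : Matrix (Fin g) (Fin g) L) i j
      rw [Matrix.one_apply, Pi.single_apply]
    | succ n ih =>
      rw [pow_succ, pow_mul, hC4, ih]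
      rfl
  ext i j
  obtain ⟨α, hα, o, ho, h3⟩ := key (NPT.ee γ (Pi.single j (1 : L)))
  have h4 := (hC2 (NPT.ee γ (Pi.single j (1 : L)) ^ (p ^ g))).2 ⟨α, by rw [hA]; exact hα, o, ho, h3⟩
  rw [hit j g] at h4
  exact congrFun h4 i

end

end EXI
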